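import Pool.Agent.Helper55.RI.Semi

set_option autoImplicit false

/-! # Random sets with void probabilities `exp (-u c(K))` -/

open Finset Filter Topology MeasureTheory

namespace RInt

variable {S : Type}

open Classical in
/-- The event that the random set meets `K` exactly in `T`. -/
def cell (K T : Finset S) : Set (Set S) := {I | ∀ x ∈ K, x ∈ I ↔ x ∈ T}

theorem measurable_cell (K T : Finset S) : MeasurableSet (cell K T) := by
  have h : cell K T = ⋂ x ∈ K, {I : Set S | x ∈ I ↔ x ∈ T} := by
    ext I
    simp [cell]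
  rw [h]
  refine Finset.measurableSet_biInter K fun x _ => ?_
  by_cases hx : x ∈ T
  · simp only [hx, iff_true]
    exact measurableSet_mem x
  · simp only [hx, iff_false]
    exact measurableSet_notMem x

/-- An event which only depends on the part of the set in `K`. -/
def Local (K : Finset S) (A : Set (Set S)) : Prop :=
  ∀ I J : Set S, (∀ x ∈ K, x ∈ I ↔ x ∈ J) → (I ∈ A ↔ J ∈ A)

open Classical in
theorem local_eq (K : Finset S) (A : Set (Set S)) (hA : Local K A) :
    A = ⋃ T ∈ K.powerset.filter (fun T : Finset S => (T : Set S) ∈ A), cell K T := by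
  ext I
  simp only [Set.mem_iUnion, mem_filter, mem_powerset, exists_prop]
  constructor
  · intro hI
    refine ⟨K.filter (fun x => x ∈ I), ⟨filter_subset _ _, ?_⟩, ?_⟩
    · rw [← hA I _ ?_]
      · exact hI
      · intro x hx
        simp [hx]
    · intro x hx
      simp [hx]
  · rintro ⟨T, ⟨_, hT⟩, hIT⟩
    rw [hA I T ?_]
    · exact hT
    · intro x hx
      rw [hIT x hx]
      simp

theorem cell_disjoint (K : Finset S) {T T' : Finset S} (hT : T ⊆ K) (hT' : T' ⊆ K) (h : T ≠ T') :
    Disjoint (cell K T) (cell K T') := by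
  rw [Set.disjoint_left]
  intro I h1 h2
  apply h
  ext x
  constructor
  · intro hx
    exact (h2 x (hT hx)).1 ((h1 x (hT hx)).2 hx)
  · intro hx
    exact (h1 x (hT' hx)).1 ((h2 x (hT' hx)).2 hx)

open Classical in
theorem local_real (K : Finset S) (A : Set (Set S)) (hA : Local K A) (μ : Measure (Set S))
    [IsFiniteMeasure μ] : μ.real A =
      ∑ T ∈ K.powerset.filter (fun T : Finset S => (T : Set S) ∈ A), μ.real (cell K T) := by
  conv_lhs => rw [local_eq K A hA]
  rw [measureReal_biUnion_finset]
  · intro T hT T' hT' hne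
    simp only [coe_filter, mem_powerset, Set.mem_ofPred_eq] at hT hT'
    exact cell_disjoint K hT.1 hT'.1 hne
  · exact fun T _ => measurable_cell K T

theorem local_measurable (K : Finset S) (A : Set (Set S)) (hA : Local K A) : MeasurableSet A := by
  classical
  rw [local_eq K A hA]
  exact Finset.measurableSet_biUnion _ fun T _ => measurable_cell K T

/-- A family of laws with void probabilities `exp (-u c(K))`. -/
structure VoidFam (c : Finset S → ℝ) (μ : ℝ → Measure (Set S)) : Prop where
  prob : ∀ u, 0 < u → IsProbabilityMeasure (μ u)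
  void : ∀ u, 0 < u → ∀ K : Finset S,
    μ u {I | ∀ x ∈ K, x ∉ I} = ENNReal.ofReal (Real.exp (-(u * c K)))

theorem VoidFam.sum [DecidableEq S] {c : Finset S → ℝ} {μ : ℝ → Measure (Set S)}
    (h : VoidFam c μ) (K : Finset S) : ∀ u, 0 < u → ∀ K' ⊆ K,
    ∑ T ∈ K.powerset with Disjoint T K', (μ u).real (cell K T) = Real.exp (-(u * c K')) := by
  intro u hu K' hK'
  have := h.prob u hu
  have h1 : (μ u).real {I | ∀ x ∈ K', x ∉ I} = Real.exp (-(u * c K')) := by
    unfold Measure.real
    rw [h.void u hu K', ENNReal.toReal_ofReal (Real.exp_pos _).le]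
  have hloc : Local K {I : Set S | ∀ x ∈ K', x ∉ I} := by
    intro I J hIJ
    constructor
    · intro h x hx hxJ
      exact h x hx ((hIJ x (hK' hx)).2 hxJ)
    · intro h x hx hxI
      exact h x hx ((hIJ x (hK' hx)).1 hxI)
  rw [← h1, local_real K _ hloc]
  apply Finset.sum_congr _ (fun _ _ => rfl)
  ext T
  simp only [mem_filter, mem_powerset]
  constructor
  · rintro ⟨hT, hd⟩
    refine ⟨hT, ?_⟩
    intro x hx hxT
    exact (Finset.disjoint_left.1 hd) (by exact_mod_cast hxT) hx
  · rintro ⟨hT, hd⟩
    refine ⟨hT, ?_⟩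
    rw [Finset.disjoint_left]
    intro x hxT hx
    exact hd x hx (by exact_mod_cast hxT)

/-- Finite window inequality for events. -/
theorem VoidFam.main {c : Finset S → ℝ} {μ : ℝ → Measure (Set S)} (h : VoidFam c μ)
    (hc0 : c ∅ = 0) (K : Finset S) (A : Set (Set S)) (hA : Local K A) (u v : ℝ) (hu : 0 < u)
    (hv : 0 < v) : |(μ u).real A - (μ v).real A| ≤ √(c K) * |√u - √v| := by
  classical
  have := h.prob u hu
  have := h.prob v hv
  rw [local_real K A hA (μ u), local_real K A hA (μ v)]
  exact semi_main K c (fun u T => (μ u).real (cell K T)) (fun _ _ _ => measureReal_nonneg)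
    (h.sum K) hc0 _ (filter_subset _ _) u v hu hv

/-- Monotonicity. -/
theorem VoidFam.mono {c : Finset S → ℝ} {μ : ℝ → Measure (Set S)} (h : VoidFam c μ)
    (hc0 : c ∅ = 0) (K : Finset S) (A : Set (Set S)) (hA : Local K A)
    (hdown : ∀ I ∈ A, ∀ J ⊆ I, J ∈ A) (u v : ℝ) (hu : 0 < u)
    (huv : u ≤ v) : (μ v).real A ≤ (μ u).real A := by
  classical
  rcases huv.eq_or_lt with rfl | huv
  · exact le_refl _
  have := h.prob u hu
  have := h.prob v (hu.trans huv)
  rw [local_real K A hA (μ u), local_real K A hA (μ v)]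
  refine semi_mono K c (fun u T => (μ u).real (cell K T)) (fun _ _ _ => measureReal_nonneg)
    (h.sum K) hc0 _ (filter_subset _ _) ?_ u v hu huv
  intro T hT R hR
  rw [mem_filter, mem_powerset] at hT ⊢
  exact ⟨hR.trans hT.1, hdown _ hT.2 _ (by exact_mod_cast hR)⟩

end RInt
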