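import Pool.Agent.Helper55.RI.Defs
import Pool.Agent.Helper55.RI.Meas

set_option autoImplicit false

/-! # The one-arm event -/

open Finset Filter Topology MeasureTheory

namespace RInt

variable {d : ℕ}

theorem uvec_le (i : Fin d × Bool) (j : Fin d) : |uvec i j| ≤ 1 := by
  unfold uvec
  split_ifs
  · by_cases h : j = i.1
    · subst h
      simp
    · simp [Pi.single_eq_of_ne h]
  · by_cases h : j = i.1
    · subst h
      simp
    · simp [Pi.single_eq_of_ne h]

theorem mem_box (n : ℕ) (x : Fin d → ℤ) : x ∈ box d n ↔ ∀ i, |x i| ≤ n := by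
  unfold box
  rw [Fintype.mem_piFinset]
  constructor
  · intro h i
    exact abs_le.2 (mem_Icc.1 (h i))
  · intro h i
    exact mem_Icc.2 (abs_le.1 (h i))

theorem arm_sub (hd : 0 < d) (n : ℕ) (I J : Set (Fin d → ℤ))
    (h : ∀ x ∈ box d n, x ∈ I ↔ x ∈ J) (hI : I ∈ (Arm n : Set (Set (Fin d → ℤ)))) :
    J ∈ (Arm n : Set (Set (Fin d → ℤ))) := by
  obtain ⟨y, ⟨h0, hy⟩, hyn⟩ := hI
  have h0b : (0 : Fin d → ℤ) ∈ box d n := by
    rw [mem_box]
    intro i
    simp
  have h0J : (0 : Fin d → ℤ) ∈ Jᶜ := fun hc => h0 ((h 0 h0b).2 hc)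
  have key : ∀ y, Relation.ReflTransGen (VAdj Iᶜ) 0 y → J ∈ (Arm n : Set (Set (Fin d → ℤ))) ∨
      (y ∈ clus Jᶜ ∧ ∀ i, |y i| < n) := by
    intro y hy
    induction hy with
    | refl =>
      rcases Nat.eq_zero_or_pos n with hn | hn
      · left
        exact ⟨0, ⟨h0J, Relation.ReflTransGen.refl⟩, ⟨0, hd⟩, by simp [hn]⟩
      · right
        refine ⟨⟨h0J, Relation.ReflTransGen.refl⟩, fun i => ?_⟩
        simpa using hn
    | @tail b c _ hbc ih =>
      rcases ih with h1 | ⟨⟨_, hb⟩, hbn⟩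
      · exact Or.inl h1
      obtain ⟨hbI, hcI, i, hi⟩ := hbc
      have hcb : c ∈ box d n := by
        rw [mem_box]
        intro j
        have h1 := hbn j
        have h2 := uvec_le i j
        rw [hi, Pi.add_apply]
        have h3 := abs_add_le (b j) (uvec i j)
        omega
      have hbb : b ∈ box d n := by
        rw [mem_box]
        exact fun j => (hbn j).le
      have hcJ : c ∈ Jᶜ := fun hc => hcI ((h c hcb).2 hc)
      have hbJ : b ∈ Jᶜ := fun hc => hbI ((h b hbb).2 hc)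
      have hc : c ∈ clus Jᶜ := ⟨h0J, hb.tail ⟨hbJ, hcJ, i, hi⟩⟩
      by_cases hall : ∀ i, |c i| < n
      · exact Or.inr ⟨hc, hall⟩
      · left
        push Not at hall
        obtain ⟨j, hj⟩ := hall
        exact ⟨c, hc, j, hj⟩
  rcases key y hy with h1 | ⟨_, h2⟩
  · exact h1
  · obtain ⟨i, hi⟩ := hyn
    have := h2 i
    omega

theorem arm_local (hd : 0 < d) (n : ℕ) : Local (box d n) (Arm n : Set (Set (Fin d → ℤ))) :=
  fun I J h => ⟨arm_sub hd n I J h, arm_sub hd n J I fun x hx => (h x hx).symm⟩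

theorem clus_mono {V W : Set (Fin d → ℤ)} (h : V ⊆ W) : clus V ⊆ clus W := by
  rintro y ⟨h0, hy⟩
  refine ⟨h h0, ?_⟩
  induction hy with
  | refl => exact Relation.ReflTransGen.refl
  | @tail b c _ hbc ih =>
    obtain ⟨hb, hc, hi⟩ := hbc
    exact ih.tail ⟨h hb, h hc, hi⟩

theorem arm_down (n : ℕ) : ∀ I ∈ (Arm n : Set (Set (Fin d → ℤ))), ∀ J ⊆ I,
    J ∈ (Arm n : Set (Set (Fin d → ℤ))) := by
  rintro I ⟨y, hy, hi⟩ J hJ
  exact ⟨y, clus_mono (Set.compl_subset_compl.2 hJ) hy, hi⟩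

theorem arm_anti : Antitone (fun n => (Arm n : Set (Set (Fin d → ℤ)))) := by
  rintro m n hmn I ⟨y, hy, i, hi⟩
  refine ⟨y, hy, i, ?_⟩
  have : (m : ℤ) ≤ n := by exact_mod_cast hmn
  exact this.trans hi

theorem infinite_eq : {I : Set (Fin d → ℤ) | (clus Iᶜ).Infinite} = ⋂ n, Arm n := by
  ext I
  rw [Set.mem_iInter]
  constructor
  · intro h n
    by_contra hc
    apply h
    refine (Finset.finite_toSet (box d n)).subset ?_
    intro y hy
    rw [Finset.mem_coe, mem_box]
    intro i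
    by_contra hi
    push Not at hi
    exact hc ⟨y, hy, i, hi.le⟩
  · intro h hfin
    have hb : ∃ N : ℕ, ∀ y ∈ clus Iᶜ, ∀ i, |y i| < N := by
      have h1 : ∃ N : ℕ, ∀ y ∈ hfin.toFinset, ∀ i, (y i).natAbs < N := by
        refine ⟨(hfin.toFinset.sup fun y => Finset.univ.sup fun i => (y i).natAbs) + 1, ?_⟩
        intro y hy i
        have h2 : (y i).natAbs ≤ Finset.univ.sup fun i => (y i).natAbs :=
          Finset.le_sup (f := fun i => (y i).natAbs) (mem_univ i)
        have h3 : (Finset.univ.sup fun i => (y i).natAbs) ≤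
            (hfin.toFinset.sup fun y => Finset.univ.sup fun i => (y i).natAbs) :=
          Finset.le_sup (f := fun y : Fin d → ℤ => Finset.univ.sup fun i => (y i).natAbs) hy
        omega
      obtain ⟨N, hN⟩ := h1
      refine ⟨N, fun y hy i => ?_⟩
      have h4 := hN y (hfin.mem_toFinset.2 hy) i
      rw [Int.abs_eq_natAbs]
      exact_mod_cast h4
    obtain ⟨N, hN⟩ := hb
    obtain ⟨y, hy, i, hi⟩ := h N
    have := hN y hy i
    omega

theorem theta_tendsto (hd : 0 < d) (μ : ℝ → Measure (Set (Fin d → ℤ))) (u : ℝ)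
    [IsProbabilityMeasure (μ u)] :
    Tendsto (fun n => (μ u).real (Arm n)) atTop (𝓝 (theta μ u)) := by
  unfold theta
  rw [infinite_eq]
  have h := tendsto_measure_iInter_atTop (μ := μ u) (s := fun n => (Arm n : Set (Set (Fin d → ℤ))))
    (fun n => (local_measurable _ _ (arm_local hd n)).nullMeasurableSet) arm_anti
    ⟨0, measure_ne_top _ _⟩
  exact (ENNReal.tendsto_toReal (measure_ne_top _ _)).comp h

theorem theta_le (μ : ℝ → Measure (Set (Fin d → ℤ))) (u : ℝ)
    [IsProbabilityMeasure (μ u)] (n : ℕ) : theta μ u ≤ (μ u).real (Arm n) := by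
  unfold theta
  rw [infinite_eq]
  exact measureReal_mono (Set.iInter_subset _ n)

end RInt
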