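import Pool.Agent.Helper55.RI.Arm

set_option autoImplicit false

/-! # The capacity of a box, through the Dirichlet principle -/

open Finset Filter Topology MeasureTheory

namespace RInt

variable {d : ℕ}

theorem card_dir : (Finset.univ : Finset (Fin d × Bool)).card = d * 2 := by
  simp

theorem noHit_nonneg (K : Finset (Fin d → ℤ)) (n : ℕ) (x : Fin d → ℤ) : 0 ≤ noHit K n x := by
  induction n generalizing x with
  | zero => exact zero_le_one
  | succ n ih =>
    rw [noHit]
    refine div_nonneg (Finset.sum_nonneg fun i _ => ?_) (by positivity)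
    split_ifs
    · exact le_rfl
    · exact ih _

theorem noHit_succ_le (hd : 0 < d) (K : Finset (Fin d → ℤ)) (n : ℕ) (x : Fin d → ℤ) :
    noHit K (n + 1) x ≤ noHit K n x := by
  have hd' : (0 : ℝ) < 2 * d := by positivity
  induction n generalizing x with
  | zero =>
    rw [noHit, noHit, div_le_one hd']
    calc (∑ i : Fin d × Bool, if x + uvec i ∈ K then 0 else noHit K 0 (x + uvec i))
        ≤ ∑ _i : Fin d × Bool, (1 : ℝ) := by
          refine Finset.sum_le_sum fun i _ => ?_
          split_ifs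
          · exact zero_le_one
          · exact le_rfl
      _ = 2 * d := by
          rw [Finset.sum_const, card_dir, nsmul_eq_mul, mul_one]
          push_cast
          ring
  | succ n ih =>
    rw [noHit, noHit]
    refine div_le_div_of_nonneg_right (Finset.sum_le_sum fun i _ => ?_) hd'.le
    split_ifs
    · exact le_rfl
    · exact ih _

theorem noHit_anti (hd : 0 < d) (K : Finset (Fin d → ℤ)) (x : Fin d → ℤ) :
    Antitone fun n => noHit K n x :=
  antitone_nat_of_succ_le fun n => noHit_succ_le hd K n x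

theorem noHit_le_one (hd : 0 < d) (K : Finset (Fin d → ℤ)) (n : ℕ) (x : Fin d → ℤ) :
    noHit K n x ≤ 1 := noHit_anti hd K x (Nat.zero_le n)

theorem esc_nonneg (K : Finset (Fin d → ℤ)) (x : Fin d → ℤ) : 0 ≤ esc K x :=
  le_ciInf fun n => noHit_nonneg K n x

theorem esc_le (K : Finset (Fin d → ℤ)) (n : ℕ) (x : Fin d → ℤ) : esc K x ≤ noHit K n x :=
  ciInf_le ⟨0, by rintro _ ⟨n, rfl⟩; exact noHit_nonneg K n x⟩ n

theorem cap_nonneg (K : Finset (Fin d → ℤ)) : 0 ≤ cap K :=
  Finset.sum_nonneg fun x _ => esc_nonneg K x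

theorem cap_empty : cap (∅ : Finset (Fin d → ℤ)) = 0 := rfl

open Classical in
/-- The probability of a visit to `K` in the times `0, …, n`. -/
noncomputable def hit (K : Finset (Fin d → ℤ)) (n : ℕ) (x : Fin d → ℤ) : ℝ :=
  if x ∈ K then 1 else 1 - noHit K n x

theorem hit_of_mem (K : Finset (Fin d → ℤ)) (n : ℕ) (x : Fin d → ℤ) (h : x ∈ K) :
    hit K n x = 1 := if_pos h

theorem hit_of_notMem (K : Finset (Fin d → ℤ)) (n : ℕ) (x : Fin d → ℤ) (h : x ∉ K) :
    hit K n x = 1 - noHit K n x := if_neg h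

theorem hit_nonneg (hd : 0 < d) (K : Finset (Fin d → ℤ)) (n : ℕ) (x : Fin d → ℤ) :
    0 ≤ hit K n x := by
  unfold hit
  split_ifs
  · exact zero_le_one
  · have := noHit_le_one hd K n x
    linarith

theorem hit_le_one (K : Finset (Fin d → ℤ)) (n : ℕ) (x : Fin d → ℤ) : hit K n x ≤ 1 := by
  unfold hit
  split_ifs
  · exact le_rfl
  · have := noHit_nonneg K n x
    linarith

theorem hit_mono (hd : 0 < d) (K : Finset (Fin d → ℤ)) (n : ℕ) (x : Fin d → ℤ) :
    hit K n x ≤ hit K (n + 1) x := by
  unfold hit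
  split_ifs
  · exact le_rfl
  · have := noHit_succ_le hd K n x
    linarith

theorem sum_hit (hd : 0 < d) (K : Finset (Fin d → ℤ)) (n : ℕ) (x : Fin d → ℤ) :
    ∑ i : Fin d × Bool, hit K n (x + uvec i) = 2 * d * (1 - noHit K (n + 1) x) := by
  have hd' : (2 * d : ℝ) ≠ 0 := by positivity
  rw [noHit, mul_sub, mul_one, mul_div_cancel₀ _ hd']
  have h1 : (2 * d : ℝ) = ∑ _i : Fin d × Bool, (1 : ℝ) := by
    rw [Finset.sum_const, card_dir, nsmul_eq_mul, mul_one]
    push_cast
    ring
  rw [h1, ← Finset.sum_sub_distrib]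
  refine Finset.sum_congr rfl fun i _ => ?_
  unfold hit
  split_ifs
  · ring
  · rfl

/-! ### Finitely supported functions -/

theorem fs_summable {f : (Fin d → ℤ) → ℝ} (hf : f.support.Finite) : Summable f :=
  summable_of_hasFiniteSupport hf

theorem fs_mul {f : (Fin d → ℤ) → ℝ} (g : (Fin d → ℤ) → ℝ) (hf : f.support.Finite) :
    (fun x => f x * g x).support.Finite := by
  refine hf.subset fun x hx => ?_
  rw [Function.mem_support] at hx ⊢
  exact left_ne_zero_of_mul hx

theorem fs_shift {f : (Fin d → ℤ) → ℝ} (v : Fin d → ℤ) (hf : f.support.Finite) :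
    (fun x => f (x + v)).support.Finite := by
  refine (hf.image fun x => x - v).subset fun x hx => ?_
  rw [Function.mem_support] at hx
  exact ⟨x + v, hx, by simp⟩

theorem fs_sum {ι : Type} (s : Finset ι) (F : ι → (Fin d → ℤ) → ℝ)
    (hF : ∀ i, (F i).support.Finite) : (fun x => ∑ i ∈ s, F i x).support.Finite := by
  refine (Set.Finite.biUnion (Finset.finite_toSet s) fun i _ => hF i).subset fun x hx => ?_
  rw [Function.mem_support] at hx
  obtain ⟨i, hi, hne⟩ := Finset.exists_ne_zero_of_sum_ne_zero hx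
  exact Set.mem_biUnion (Finset.mem_coe.2 hi) hne

theorem fs_hit (hd : 0 < d) (K : Finset (Fin d → ℤ)) (n : ℕ) : (hit K n).support.Finite := by
  induction n with
  | zero =>
    refine (Finset.finite_toSet K).subset fun x hx => ?_
    by_contra hc
    rw [Function.mem_support] at hx
    exact hx (by rw [hit_of_notMem K 0 x hc]; simp [noHit])
  | succ n ih =>
    have h1 := fs_sum Finset.univ (fun i : Fin d × Bool => fun x => hit K n (x + uvec i))
      fun i => fs_shift (uvec i) ih
    refine ((Finset.finite_toSet K).union h1).subset fun x hx => ?_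
    by_cases hK : x ∈ K
    · exact Or.inl hK
    · right
      rw [Function.mem_support] at hx ⊢
      rw [hit_of_notMem K _ x hK] at hx
      rw [sum_hit hd]
      have hd' : (2 * d : ℝ) ≠ 0 := by positivity
      exact mul_ne_zero hd' hx

/-- The Dirichlet form. -/
noncomputable def dir (g : (Fin d → ℤ) → ℝ) : ℝ :=
  ∑' x, ∑ i : Fin d × Bool, (g x - g (x + uvec i)) ^ 2

theorem uvec_neg (i : Fin d × Bool) : uvec (i.1, !i.2) = -uvec i := by
  unfold uvec
  cases i.2 <;> simp

theorem sum_neg_uvec (F : (Fin d → ℤ) → ℝ) :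
    ∑ i : Fin d × Bool, F (-uvec i) = ∑ i : Fin d × Bool, F (uvec i) := by
  let e : Fin d × Bool ≃ Fin d × Bool :=
    ⟨fun i => (i.1, !i.2), fun i => (i.1, !i.2), fun i => by simp, fun i => by simp⟩
  rw [← Equiv.sum_comp e fun i => F (uvec i)]
  refine Finset.sum_congr rfl fun i _ => ?_
  rw [← uvec_neg i]
  rfl

/-- Summation by parts. -/
theorem parts (f h : (Fin d → ℤ) → ℝ) (hf : f.support.Finite) :
    ∑' x, ∑ i : Fin d × Bool, (f x - f (x + uvec i)) * (h x - h (x + uvec i)) =
      2 * ∑' x, f x * ∑ i : Fin d × Bool, (h x - h (x + uvec i)) := by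
  have h1 : ∀ i : Fin d × Bool, ∑' x, f (x + uvec i) * (h x - h (x + uvec i)) =
      ∑' x, f x * (h (x + -uvec i) - h x) := by
    intro i
    rw [← (Equiv.addRight (uvec i)).tsum_eq fun x => f x * (h (x + -uvec i) - h x)]
    refine tsum_congr fun x => ?_
    simp
  have hs1 : ∀ i : Fin d × Bool, Summable fun x => f (x + uvec i) * (h x - h (x + uvec i)) :=
    fun i => fs_summable (fs_mul _ (fs_shift (uvec i) hf))
  have hs2 : ∀ i : Fin d × Bool, Summable fun x => f x * (h (x + -uvec i) - h x) :=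
    fun i => fs_summable (fs_mul _ hf)
  have h2 : ∑' x, ∑ i : Fin d × Bool, f (x + uvec i) * (h x - h (x + uvec i)) =
      -∑' x, f x * ∑ i : Fin d × Bool, (h x - h (x + uvec i)) := by
    rw [Summable.tsum_finsetSum fun i _ => hs1 i, Finset.sum_congr rfl fun i _ => h1 i,
      ← Summable.tsum_finsetSum fun i _ => hs2 i, ← tsum_neg]
    refine tsum_congr fun x => ?_
    rw [sum_neg_uvec fun v => f x * (h (x + v) - h x), Finset.mul_sum, ← Finset.sum_neg_distrib]
    exact Finset.sum_congr rfl fun i _ => by ring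
  have h3 : ∀ x, ∑ i : Fin d × Bool, (f x - f (x + uvec i)) * (h x - h (x + uvec i)) =
      f x * ∑ i : Fin d × Bool, (h x - h (x + uvec i)) -
        ∑ i : Fin d × Bool, f (x + uvec i) * (h x - h (x + uvec i)) := by
    intro x
    rw [Finset.mul_sum, ← Finset.sum_sub_distrib]
    exact Finset.sum_congr rfl fun i _ => by ring
  rw [tsum_congr h3, Summable.tsum_sub (fs_summable (fs_mul _ hf))
    (fs_summable (fs_sum _ _ fun i => fs_mul _ (fs_shift (uvec i) hf))), h2]
  ring

theorem fs_diff {f : (Fin d → ℤ) → ℝ} (hf : f.support.Finite) (i : Fin d × Bool) :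
    (fun x => f x - f (x + uvec i)).support.Finite := by
  refine (hf.union (fs_shift (uvec i) hf)).subset fun x hx => ?_
  rw [Function.mem_support] at hx
  by_contra hc
  rw [Set.mem_union, not_or, Function.notMem_support, Function.notMem_support] at hc
  exact hx (by rw [hc.1, hc.2, sub_zero])

theorem dir_sub (f h : (Fin d → ℤ) → ℝ) (hf : f.support.Finite) (hh : h.support.Finite) :
    dir (fun x => f x - h x) = dir f + 2 * ∑' x, h x * ∑ i : Fin d × Bool, (h x - h (x + uvec i)) -
      4 * ∑' x, f x * ∑ i : Fin d × Bool, (h x - h (x + uvec i)) := by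
  have e1 : ∀ x, ∑ i : Fin d × Bool, ((f x - h x) - (f (x + uvec i) - h (x + uvec i))) ^ 2 =
      ∑ i : Fin d × Bool, (f x - f (x + uvec i)) ^ 2 +
      (∑ i : Fin d × Bool, (h x - h (x + uvec i)) * (h x - h (x + uvec i)) -
      2 * ∑ i : Fin d × Bool, (f x - f (x + uvec i)) * (h x - h (x + uvec i))) := by
    intro x
    rw [Finset.mul_sum, ← Finset.sum_sub_distrib, ← Finset.sum_add_distrib]
    exact Finset.sum_congr rfl fun i _ => by ring
  have s1 : Summable fun x => ∑ i : Fin d × Bool, (f x - f (x + uvec i)) ^ 2 := by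
    refine fs_summable (fs_sum _ _ fun i => ?_)
    have := fs_mul (fun x => f x - f (x + uvec i)) (fs_diff hf i)
    simpa [pow_two] using this
  have s2 : Summable fun x => ∑ i : Fin d × Bool,
      (h x - h (x + uvec i)) * (h x - h (x + uvec i)) :=
    fs_summable (fs_sum _ _ fun i => fs_mul _ (fs_diff hh i))
  have s3 : Summable fun x => ∑ i : Fin d × Bool,
      (f x - f (x + uvec i)) * (h x - h (x + uvec i)) :=
    fs_summable (fs_sum _ _ fun i => fs_mul _ (fs_diff hf i))
  unfold dir
  rw [tsum_congr e1, Summable.tsum_add s1 (s2.sub (s3.mul_left 2)),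
    Summable.tsum_sub s2 (s3.mul_left 2), tsum_mul_left, parts f h hf, parts h h hh]
  ring

theorem dir_nonneg (g : (Fin d → ℤ) → ℝ) : 0 ≤ dir g :=
  tsum_nonneg fun _ => Finset.sum_nonneg fun _ _ => sq_nonneg _

open Classical in
theorem lap_hit (hd : 0 < d) (K : Finset (Fin d → ℤ)) (n : ℕ) (x : Fin d → ℤ) :
    ∑ i : Fin d × Bool, (hit K n x - hit K n (x + uvec i)) =
      2 * d * (hit K n x - hit K (n + 1) x) + 2 * d * (if x ∈ K then noHit K (n + 1) x else 0) := by
  rw [Finset.sum_sub_distrib, sum_hit hd, Finset.sum_const, card_dir, nsmul_eq_mul]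
  push_cast
  by_cases hx : x ∈ K
  · rw [hit_of_mem K n x hx, hit_of_mem K (n + 1) x hx, if_pos hx]
    ring
  · rw [hit_of_notMem K n x hx, hit_of_notMem K (n + 1) x hx, if_neg hx]
    ring

open Classical in
theorem pair_lap (hd : 0 < d) (K : Finset (Fin d → ℤ)) (n : ℕ) (f : (Fin d → ℤ) → ℝ)
    (hf : f.support.Finite) (h1 : ∀ x ∈ K, f x = 1) :
    ∑' x, f x * ∑ i : Fin d × Bool, (hit K n x - hit K n (x + uvec i)) =
      2 * d * ∑' x, f x * (hit K n x - hit K (n + 1) x) + 2 * d * ∑ x ∈ K, noHit K (n + 1) x := by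
  have e : ∀ x, f x * ∑ i : Fin d × Bool, (hit K n x - hit K n (x + uvec i)) =
      2 * d * (f x * (hit K n x - hit K (n + 1) x)) +
        2 * d * (if x ∈ K then noHit K (n + 1) x else 0) := by
    intro x
    rw [lap_hit hd]
    by_cases hx : x ∈ K
    · rw [if_pos hx, h1 x hx]
      ring
    · rw [if_neg hx]
      ring
  have sK : (fun x => (if x ∈ K then noHit K (n + 1) x else 0)).support.Finite := by
    refine (Finset.finite_toSet K).subset fun x hx => ?_
    rw [Function.mem_support] at hx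
    by_contra hc
    exact hx (if_neg hc)
  rw [tsum_congr e, Summable.tsum_add ((fs_summable (fs_mul _ hf)).mul_left _)
    ((fs_summable sK).mul_left _), tsum_mul_left, tsum_mul_left]
  congr 2
  rw [tsum_eq_sum (s := K) fun x hx => if_neg hx]
  exact Finset.sum_congr rfl fun x hx => if_pos hx

/-- The Dirichlet principle (upper bound). -/
theorem cap_le_dir (hd : 0 < d) (K : Finset (Fin d → ℤ)) (f : (Fin d → ℤ) → ℝ)
    (hf : f.support.Finite) (h1 : ∀ x ∈ K, f x = 1) (h0 : ∀ x, 0 ≤ f x) :
    4 * d * cap K ≤ dir f := by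
  have hd' : (0 : ℝ) < d := by exact_mod_cast hd
  have step : ∀ n, 4 * d * cap K - dir f ≤
      8 * d * (∑' x, f x * hit K (n + 1) x - ∑' x, f x * hit K n x) := by
    intro n
    have a1 := dir_nonneg fun x => f x - hit K n x
    rw [dir_sub f (hit K n) hf (fs_hit hd K n), pair_lap hd K n f hf h1,
      pair_lap hd K n (hit K n) (fs_hit hd K n) fun x hx => hit_of_mem K n x hx] at a1
    have a2 : ∑' x, f x * (hit K n x - hit K (n + 1) x) =
        ∑' x, f x * hit K n x - ∑' x, f x * hit K (n + 1) x := by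
      rw [← Summable.tsum_sub (fs_summable (fs_mul _ hf)) (fs_summable (fs_mul _ hf))]
      exact tsum_congr fun x => mul_sub _ _ _
    have a3 : ∑' x, hit K n x * (hit K n x - hit K (n + 1) x) ≤ 0 := by
      refine tsum_nonpos fun x => ?_
      have b1 := hit_nonneg hd K n x
      have b2 := hit_mono hd K n x
      exact mul_nonpos_of_nonneg_of_nonpos b1 (by linarith)
    have a4 : cap K ≤ ∑ x ∈ K, noHit K (n + 1) x := Finset.sum_le_sum fun x _ => esc_le K _ x
    have a5 : 4 * d * cap K ≤ 4 * d * ∑ x ∈ K, noHit K (n + 1) x := by gcongr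
    have a6 : (4 * d : ℝ) * ∑' x, hit K n x * (hit K n x - hit K (n + 1) x) ≤ 0 :=
      mul_nonpos_of_nonneg_of_nonpos (by positivity) a3
    rw [a2] at a1
    nlinarith [a1, a5, a6]
  have tel : ∀ N : ℕ, (N : ℝ) * (4 * d * cap K - dir f) ≤ 8 * d * ∑' x, f x := by
    intro N
    have b1 : ∑ n ∈ Finset.range N, (4 * d * cap K - dir f) ≤
        ∑ n ∈ Finset.range N, 8 * d * (∑' x, f x * hit K (n + 1) x - ∑' x, f x * hit K n x) :=
      Finset.sum_le_sum fun n _ => step n
    rw [Finset.sum_const, Finset.card_range, nsmul_eq_mul, ← Finset.mul_sum,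
      Finset.sum_range_sub fun n => ∑' x, f x * hit K n x] at b1
    refine b1.trans (mul_le_mul_of_nonneg_left ?_ (by positivity))
    have b2 : 0 ≤ ∑' x, f x * hit K 0 x := tsum_nonneg fun x => mul_nonneg (h0 x) (hit_nonneg hd K 0 x)
    have b3 : ∑' x, f x * hit K N x ≤ ∑' x, f x := by
      refine Summable.tsum_le_tsum (fun x => ?_) (fs_summable (fs_mul _ hf)) (fs_summable hf)
      exact mul_le_of_le_one_right (h0 x) (hit_le_one K N x)
    linarith
  by_contra hc
  push Not at hc
  have hpos : 0 < 4 * d * cap K - dir f := by linarith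
  obtain ⟨N, hN⟩ := exists_nat_gt (8 * d * (∑' x, f x) / (4 * d * cap K - dir f))
  rw [div_lt_iff₀ hpos] at hN
  exact absurd (tel N) (not_le.2 hN)

/-! ### The test function -/

/-- The radial cut-off. -/
noncomputable def cut (n : ℕ) (t : ℝ) : ℝ := max 0 (min 1 (2 - t / n))

theorem cut_nonneg (n : ℕ) (t : ℝ) : 0 ≤ cut n t := le_max_left _ _

theorem cut_one (n : ℕ) (hn : 0 < n) (t : ℝ) (ht : t ≤ n) : cut n t = 1 := by
  have hn' : (0 : ℝ) < n := by exact_mod_cast hn
  have h1 : t / n ≤ 1 := (div_le_one hn').2 ht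
  unfold cut
  rw [min_eq_left (by linarith), max_eq_right zero_le_one]

theorem cut_zero (n : ℕ) (hn : 0 < n) (t : ℝ) (ht : 2 * n ≤ t) : cut n t = 0 := by
  have hn' : (0 : ℝ) < n := by exact_mod_cast hn
  have h1 : 2 ≤ t / n := (le_div_iff₀ hn').2 ht
  unfold cut
  exact max_eq_left ((min_le_right _ _).trans (by linarith))

theorem cut_lip (n : ℕ) (hn : 0 < n) (s t : ℝ) (hst : |s - t| ≤ 1) :
    (cut n s - cut n t) ^ 2 ≤ 1 / (n : ℝ) ^ 2 := by
  have hn' : (0 : ℝ) < n := by exact_mod_cast hn
  have h1 : |cut n s - cut n t| ≤ |(2 - s / n) - (2 - t / n)| := by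
    unfold cut
    refine (abs_max_sub_max_le_max _ _ _ _).trans ?_
    refine max_le (by simp) ((abs_min_sub_min_le_max _ _ _ _).trans ?_)
    exact max_le (by simp) le_rfl
  have h2 : |(2 - s / n) - (2 - t / n)| = |s - t| / n := by
    have : (2 - s / n) - (2 - t / n) = -((s - t) / n) := by ring
    rw [this, abs_neg, abs_div, abs_of_pos hn']
  rw [h2] at h1
  have h3 : |cut n s - cut n t| ≤ 1 / n := h1.trans (div_le_div_of_nonneg_right hst hn'.le)
  rw [← sq_abs, ← one_div_pow]
  exact pow_le_pow_left₀ (abs_nonneg _) h3 2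

theorem norm_le_iff (n : ℕ) (x : Fin d → ℤ) : ‖x‖ ≤ n ↔ x ∈ box d n := by
  rw [mem_box, pi_norm_le_iff_of_nonneg (Nat.cast_nonneg n)]
  refine forall_congr' fun i => ?_
  rw [Int.norm_eq_abs]
  constructor
  · intro h
    exact_mod_cast h
  · intro h
    exact_mod_cast h

theorem norm_uvec (i : Fin d × Bool) : ‖uvec i‖ ≤ 1 := by
  have := (norm_le_iff 1 (uvec i)).2 (by rw [mem_box]; exact fun j => by exact_mod_cast uvec_le i j)
  simpa using this

theorem lt_norm (n : ℕ) (x : Fin d → ℤ) (hx : x ∉ box d n) : (n : ℝ) + 1 ≤ ‖x‖ := by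
  by_contra hc
  push Not at hc
  apply hx
  rw [mem_box]
  intro i
  have h1 : ‖x i‖ ≤ ‖x‖ := norm_le_pi_norm x i
  have h2 := h1.trans_lt hc
  rw [Int.norm_eq_abs] at h2
  have h3 : |x i| < (n : ℤ) + 1 := by exact_mod_cast h2
  omega

theorem card_box (n : ℕ) : ((box d n).card : ℝ) = (2 * n + 1) ^ d := by
  unfold box
  rw [Fintype.card_piFinset]
  have h : ∀ i : Fin d, (Finset.Icc (-(n : ℤ)) n).card = 2 * n + 1 := by
    intro i
    rw [Int.card_Icc]
    omega
  rw [Finset.prod_congr rfl fun i _ => h i, Finset.prod_const, Finset.card_univ, Fintype.card_fin]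
  push_cast
  ring

theorem cap_box (hd : 0 < d) (n : ℕ) (hn : 0 < n) :
    cap (box d n) ≤ (4 * n + 1) ^ d / (2 * n ^ 2) := by
  have hn' : (0 : ℝ) < n := by exact_mod_cast hn
  have hd' : (0 : ℝ) < d := by exact_mod_cast hd
  set f : (Fin d → ℤ) → ℝ := fun x => cut n ‖x‖ with hf
  have hout : ∀ x ∉ box d (2 * n), f x = 0 := by
    intro x hx
    have := lt_norm (2 * n) x hx
    push_cast at this
    exact cut_zero n hn _ (by linarith)
  have hfs : f.support.Finite := by
    refine (Finset.finite_toSet (box d (2 * n))).subset fun x hx => ?_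
    rw [Function.mem_support] at hx
    by_contra hc
    exact hx (hout x hc)
  have h1 := cap_le_dir hd (box d n) f hfs
    (fun x hx => cut_one n hn _ ((norm_le_iff n x).2 hx)) (fun x => cut_nonneg n _)
  have h2 : dir f ≤ (4 * n + 1) ^ d * (2 * d * (1 / (n : ℝ) ^ 2)) := by
    unfold dir
    rw [tsum_eq_sum (s := box d (2 * n))]
    · have h3 : ∀ x ∈ box d (2 * n), ∑ i : Fin d × Bool, (f x - f (x + uvec i)) ^ 2 ≤
          2 * d * (1 / (n : ℝ) ^ 2) := by
        intro x _
        calc ∑ i : Fin d × Bool, (f x - f (x + uvec i)) ^ 2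
            ≤ ∑ _i : Fin d × Bool, (1 / (n : ℝ) ^ 2) := by
              refine Finset.sum_le_sum fun i _ => cut_lip n hn _ _ ?_
              refine (abs_norm_sub_norm_le _ _).trans ?_
              have : x - (x + uvec i) = -uvec i := by abel
              rw [this, norm_neg]
              exact norm_uvec i
          _ = 2 * d * (1 / (n : ℝ) ^ 2) := by
              rw [Finset.sum_const, card_dir, nsmul_eq_mul]
              push_cast
              ring
      refine (Finset.sum_le_sum h3).trans ?_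
      rw [Finset.sum_const, nsmul_eq_mul, card_box]
      push_cast
      refine le_of_eq ?_
      ring
    · intro x hx
      refine Finset.sum_eq_zero fun i _ => ?_
      have h3 := lt_norm (2 * n) x hx
      push_cast at h3
      have h4 : ‖x‖ ≤ ‖x + uvec i‖ + 1 := by
        have h5 := norm_sub_le (x + uvec i) (uvec i)
        rw [add_sub_cancel_right] at h5
        have := norm_uvec i
        linarith
      have h5 : f (x + uvec i) = 0 := cut_zero n hn _ (by linarith)
      rw [hout x hx, h5]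
      ring
  have h3 : 4 * d * cap (box d n) ≤ 4 * d * ((4 * n + 1) ^ d / (2 * n ^ 2)) := by
    refine (h1.trans h2).trans (le_of_eq ?_)
    field_simp
    ring
  exact le_of_mul_le_mul_left h3 (by positivity)

end RInt
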