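import Mathlib

set_option autoImplicit false

/-! # Random interlacements on `ℤ^d` through the capacity characterisation -/

open Finset Filter Topology MeasureTheory

namespace RInt

variable {d : ℕ}

/-- The `2d` unit vectors of `ℤ^d`. -/
def uvec (i : Fin d × Bool) : Fin d → ℤ := if i.2 then Pi.single i.1 1 else -Pi.single i.1 1

open Classical in
/-- The probability that simple random walk started at `x` is outside `K` at the times
`1, …, n`. -/
noncomputable def noHit (K : Finset (Fin d → ℤ)) : ℕ → (Fin d → ℤ) → ℝ
  | 0, _ => 1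
  | n + 1, x => (∑ i : Fin d × Bool, if x + uvec i ∈ K then 0 else noHit K n (x + uvec i)) /
      (2 * d)

/-- The probability that simple random walk started at `x` never returns to `K`. -/
noncomputable def esc (K : Finset (Fin d → ℤ)) (x : Fin d → ℤ) : ℝ := ⨅ n, noHit K n x

/-- The capacity of the finite set `K`. -/
noncomputable def cap (K : Finset (Fin d → ℤ)) : ℝ := ∑ x ∈ K, esc K x

/-- `μ` is the law of random interlacements at level `u`. -/
structure IsInterlacement (u : ℝ) (μ : Measure (Set (Fin d → ℤ))) : Prop where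
  prob : IsProbabilityMeasure μ
  void : ∀ K : Finset (Fin d → ℤ),
    μ {I | ∀ x ∈ K, x ∉ I} = ENNReal.ofReal (Real.exp (-(u * cap K)))

/-- Nearest neighbours in the set `V`. -/
def VAdj (V : Set (Fin d → ℤ)) (x y : Fin d → ℤ) : Prop := x ∈ V ∧ y ∈ V ∧ ∃ i, y = x + uvec i

/-- The connected component of the origin in `V` (empty if the origin is not in `V`). -/
def clus (V : Set (Fin d → ℤ)) : Set (Fin d → ℤ) :=
  {y | 0 ∈ V ∧ Relation.ReflTransGen (VAdj V) 0 y}

/-- The percolation function of the vacant set. -/
noncomputable def theta (μ : ℝ → Measure (Set (Fin d → ℤ))) (u : ℝ) : ℝ :=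
  (μ u).real {I | (clus Iᶜ).Infinite}

/-- The origin is connected in the vacant set to a point at sup-distance at least `n`. -/
def Arm (n : ℕ) : Set (Set (Fin d → ℤ)) := {I | ∃ y ∈ clus Iᶜ, ∃ i, (n : ℤ) ≤ |y i|}

/-- The box `[-n, n]^d`. -/
noncomputable def box (d n : ℕ) : Finset (Fin d → ℤ) := Fintype.piFinset fun _ => Finset.Icc (-(n : ℤ)) n

end RInt
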