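import Mathlib

set_option autoImplicit false

/-! # Laws on subsets of a finite set given by void probabilities `exp (-u c(K'))` -/

open Finset Filter Topology

namespace RInt

variable {S : Type} [DecidableEq S]

/-- A function on the subsets of `K` is determined by its void sums. -/
theorem semi_unique (K : Finset S) (f g : Finset S → ℝ)
    (h : ∀ K' ⊆ K, ∑ T ∈ K.powerset with Disjoint T K', f T =
      ∑ T ∈ K.powerset with Disjoint T K', g T) : ∀ T ⊆ K, f T = g T := by
  intro T
  induction T using Finset.strongInduction with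
  | H T ih =>
    intro hT
    have h1 := h (K \ T) sdiff_subset
    have h2 : K.powerset.filter (fun R => Disjoint R (K \ T)) = T.powerset := by
      ext R
      simp only [mem_filter, mem_powerset]
      constructor
      · rintro ⟨hR, hd⟩ x hx
        by_contra hc
        exact (Finset.disjoint_left.1 hd) hx (mem_sdiff.2 ⟨hR hx, hc⟩)
      · intro hR
        refine ⟨hR.trans hT, ?_⟩
        rw [Finset.disjoint_left]
        intro x hx hx'
        exact (mem_sdiff.1 hx').2 (hR hx)
    rw [h2, ← Finset.sum_erase_add _ f (mem_powerset_self T),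
      ← Finset.sum_erase_add _ g (mem_powerset_self T)] at h1
    have h3 : ∑ R ∈ T.powerset.erase T, f R = ∑ R ∈ T.powerset.erase T, g R := by
      apply Finset.sum_congr rfl
      intro R hR
      rw [mem_erase, mem_powerset] at hR
      exact ih R (Finset.ssubset_iff_subset_ne.2 ⟨hR.2, hR.1⟩) (hR.2.trans hT)
    linarith

/-- Existence of the intensity weights. -/
theorem semi_weights (K : Finset S) (c : Finset S → ℝ) (p : ℝ → Finset S → ℝ)
    (hp0 : ∀ u, 0 < u → ∀ T, 0 ≤ p u T)
    (hsum : ∀ u, 0 < u → ∀ K' ⊆ K, ∑ T ∈ K.powerset with Disjoint T K', p u T =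
      Real.exp (-(u * c K'))) (hc0 : c ∅ = 0) :
    ∃ w : Finset S → ℝ, (∀ T, 0 ≤ w T) ∧ ∀ K' ⊆ K,
      ∑ T ∈ K.powerset with ¬ Disjoint T K', w T = c K' := by
  have htot : ∀ u, 0 < u → ∑ T ∈ K.powerset, p u T = 1 := by
    intro u hu
    have h := hsum u hu ∅ (empty_subset _)
    simp only [disjoint_empty_right, filter_true, hc0, mul_zero, neg_zero, Real.exp_zero] at h
    exact h
  have hcompl : ∀ u, 0 < u → ∀ K' ⊆ K, ∑ T ∈ K.powerset with ¬ Disjoint T K', p u T =
      1 - Real.exp (-(u * c K')) := by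
    intro u hu K' hK'
    have h := Finset.sum_filter_add_sum_filter_not K.powerset (fun T => Disjoint T K') (p u)
    rw [htot u hu, hsum u hu K' hK'] at h
    linarith
  have hcn : ∀ K' ⊆ K, 0 ≤ c K' := by
    intro K' hK'
    by_contra hneg
    push Not at hneg
    have h := hcompl 1 one_pos K' hK'
    have h1 : 0 ≤ ∑ T ∈ K.powerset with ¬ Disjoint T K', p 1 T :=
      Finset.sum_nonneg fun T _ => hp0 1 one_pos T
    rw [h, one_mul] at h1
    have h2 : 1 < Real.exp (-(c K')) := by
      rw [Real.one_lt_exp_iff]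
      linarith
    linarith
  -- the sequence
  let u : ℕ → ℝ := fun k => 1 / ((k : ℝ) + 1)
  have hu : ∀ k, 0 < u k := fun k => by
    show 0 < 1 / ((k : ℝ) + 1)
    positivity
  let q : ℕ → Finset S → ℝ := fun k T => p (u k) T / u k
  let U : Ultrafilter ℕ := Filter.hyperfilter ℕ
  have hU : (U : Filter ℕ) ≤ atTop := by
    rw [← Nat.cofinite_eq_atTop]
    exact Filter.hyperfilter_le_cofinite
  have hqb : ∀ k, ∀ T ∈ K.powerset, T ≠ ∅ → q k T ∈ Set.Icc 0 (c K) := by
    intro k T hT hTe
    refine ⟨div_nonneg (hp0 _ (hu k) T) (hu k).le, ?_⟩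
    rw [div_le_iff₀ (hu k)]
    have h1 : p (u k) T ≤ ∑ R ∈ K.powerset with ¬ Disjoint R K, p (u k) R := by
      apply Finset.single_le_sum (f := p (u k)) (fun R _ => hp0 _ (hu k) R)
      rw [mem_filter]
      refine ⟨hT, ?_⟩
      rw [Finset.disjoint_left]
      intro h
      obtain ⟨x, hx⟩ := nonempty_iff_ne_empty.2 hTe
      exact h hx (mem_powerset.1 hT hx)
    rw [hcompl _ (hu k) K (Subset.refl K)] at h1
    have h2 := Real.add_one_le_exp (-(u k * c K))
    linarith
  have hlim : ∀ T, ∃ w : ℝ, 0 ≤ w ∧ (T ∈ K.powerset → T ≠ ∅ →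
      Tendsto (fun k => q k T) U (𝓝 w)) := by
    intro T
    by_cases hT : T ∈ K.powerset ∧ T ≠ ∅
    · have hc : IsCompact (Set.Icc (0 : ℝ) (c K)) := isCompact_Icc
      have h1 : Set.Icc (0 : ℝ) (c K) ∈ U.map (fun k => q k T) := by
        rw [Ultrafilter.mem_map]
        exact Filter.mem_of_superset Filter.univ_mem fun k _ => hqb k T hT.1 hT.2
      obtain ⟨w, hw, hw'⟩ := hc.ultrafilter_le_nhds' _ h1
      exact ⟨w, hw.1, fun _ _ => hw'⟩
    · exact ⟨0, le_refl 0, fun h1 h2 => absurd ⟨h1, h2⟩ hT⟩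
  choose w hw0 hw using hlim
  refine ⟨w, hw0, ?_⟩
  intro K' hK'
  have h1 : Tendsto (fun k => ∑ T ∈ K.powerset with ¬ Disjoint T K', q k T) U
      (𝓝 (∑ T ∈ K.powerset with ¬ Disjoint T K', w T)) := by
    apply tendsto_finsetSum
    intro T hT
    rw [mem_filter] at hT
    refine hw T hT.1 ?_
    rintro rfl
    exact hT.2 (disjoint_empty_left _)
  have h2 : (fun k => ∑ T ∈ K.powerset with ¬ Disjoint T K', q k T) =
      fun k => (1 - Real.exp (-(u k * c K'))) / u k := by
    funext k
    show ∑ T ∈ K.powerset with ¬ Disjoint T K', p (u k) T / u k = _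
    rw [← Finset.sum_div, hcompl _ (hu k) K' hK']
  have hut : Tendsto u atTop (𝓝[>] 0) := by
    rw [tendsto_nhdsWithin_iff]
    exact ⟨tendsto_one_div_add_atTop_nhds_zero_nat, Filter.Eventually.of_forall hu⟩
  have h3 : Tendsto (fun x : ℝ => (1 - Real.exp (-(x * c K'))) / x) (𝓝[>] 0) (𝓝 (c K')) := by
    have hd : HasDerivAt (fun x : ℝ => 1 - Real.exp (-(x * c K'))) (c K') 0 := by
      have e1 : HasDerivAt (fun x : ℝ => -(x * c K')) (-(1 * c K')) 0 :=
        ((hasDerivAt_id (0 : ℝ)).mul_const (c K')).neg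
      have e2 := (e1.exp).const_sub 1
      simpa using e2
    have h4 := hd.tendsto_slope_zero_right
    simp only [zero_add, zero_mul, neg_zero, Real.exp_zero, sub_self, sub_zero, smul_eq_mul] at h4
    refine h4.congr fun x => ?_
    rw [div_eq_inv_mul]
  rw [h2] at h1
  exact tendsto_nhds_unique h1 ((h3.comp hut).mono_left hU)

/-- Convolution powers of `w` in the union semigroup. -/
noncomputable def cpow (K : Finset S) (w : Finset S → ℝ) (n : ℕ) (T : Finset S) : ℝ :=
  ∑ f ∈ Fintype.piFinset (fun _ : Fin n => K.powerset.erase ∅) with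
    Finset.univ.biUnion f = T, ∏ i, w (f i)

theorem cpow_nonneg (K : Finset S) (w : Finset S → ℝ) (hw : ∀ T, 0 ≤ w T) (n : ℕ)
    (T : Finset S) : 0 ≤ cpow K w n T :=
  Finset.sum_nonneg fun _ _ => Finset.prod_nonneg fun _ _ => hw _

theorem cpow_sum (K : Finset S) (w : Finset S → ℝ) (n : ℕ) (K' : Finset S) :
    ∑ T ∈ K.powerset with Disjoint T K', cpow K w n T =
      (∑ T ∈ K.powerset.erase ∅ with Disjoint T K', w T) ^ n := by
  classical
  unfold cpow
  have h1 : (∑ T ∈ K.powerset.erase ∅ with Disjoint T K', w T) ^ n =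
      ∑ f ∈ Fintype.piFinset (fun _ : Fin n => (K.powerset.erase ∅).filter
        (fun T => Disjoint T K')), ∏ i, w (f i) := by
    have h2 := Finset.prod_univ_sum (fun _ : Fin n => (K.powerset.erase ∅).filter
        (fun T => Disjoint T K')) (fun _ T => w T)
    rw [← h2, Finset.prod_const, Finset.card_univ, Fintype.card_fin]
  rw [h1, Finset.sum_filter]
  have h3 : ∀ T ∈ K.powerset, (if Disjoint T K' then
      ∑ f ∈ Fintype.piFinset (fun _ : Fin n => K.powerset.erase ∅) with
        Finset.univ.biUnion f = T, ∏ i, w (f i) else 0) =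
      ∑ f ∈ Fintype.piFinset (fun _ : Fin n => K.powerset.erase ∅),
        if Finset.univ.biUnion f = T then (if Disjoint (Finset.univ.biUnion f) K' then
          ∏ i, w (f i) else 0) else 0 := by
    intro T _
    rw [Finset.sum_filter]
    split_ifs with hd
    · apply Finset.sum_congr rfl
      intro f _
      by_cases hf : Finset.univ.biUnion f = T
      · rw [if_pos hf, if_pos hf, hf, if_pos hd]
      · rw [if_neg hf, if_neg hf]
    · symm
      apply Finset.sum_eq_zero
      intro f _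
      by_cases hf : Finset.univ.biUnion f = T
      · rw [if_pos hf, hf, if_neg hd]
      · rw [if_neg hf]
  rw [Finset.sum_congr rfl h3, Finset.sum_comm]
  have h4 : ∀ f ∈ Fintype.piFinset (fun _ : Fin n => K.powerset.erase ∅),
      (∑ T ∈ K.powerset, if Finset.univ.biUnion f = T then
        (if Disjoint (Finset.univ.biUnion f) K' then ∏ i, w (f i) else 0) else 0) =
      if Disjoint (Finset.univ.biUnion f) K' then ∏ i, w (f i) else 0 := by
    intro f hf
    rw [Fintype.mem_piFinset] at hf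
    rw [Finset.sum_ite_eq, if_pos]
    rw [mem_powerset]
    intro x hx
    obtain ⟨i, _, hi⟩ := mem_biUnion.1 hx
    exact mem_powerset.1 (mem_of_mem_erase (hf i)) hi
  rw [Finset.sum_congr rfl h4, ← Finset.sum_filter]
  apply Finset.sum_congr _ (fun _ _ => rfl)
  ext f
  simp only [mem_filter, Fintype.mem_piFinset]
  constructor
  · rintro ⟨h, hd⟩ i
    refine ⟨h i, ?_⟩
    rw [Finset.disjoint_biUnion_left] at hd
    exact hd i (mem_univ i)
  · intro h
    refine ⟨fun i => (h i).1, ?_⟩
    rw [Finset.disjoint_biUnion_left]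
    exact fun i _ => (h i).2

/-- The law is compound Poisson in the union semigroup. -/
theorem semi_series (K : Finset S) (c : Finset S → ℝ) (p : Finset S → ℝ) (u : ℝ) (hu : 0 < u)
    (hsum : ∀ K' ⊆ K, ∑ T ∈ K.powerset with Disjoint T K', p T = Real.exp (-(u * c K')))
    (w : Finset S → ℝ) (hw0 : ∀ T, 0 ≤ w T)
    (hw : ∀ K' ⊆ K, ∑ T ∈ K.powerset with ¬ Disjoint T K', w T = c K') :
    (∀ n T, T ⊆ K → cpow K w n T ≤ c K ^ n) ∧
    (∀ n, ∑ T ∈ K.powerset, cpow K w n T = c K ^ n) ∧
    ∀ T ⊆ K, HasSum (fun n : ℕ => Real.exp (-(u * c K)) * (u ^ n / n.factorial * cpow K w n T))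
      (p T) := by
  have hN : ∀ K' ⊆ K, ∑ T ∈ K.powerset.erase ∅ with Disjoint T K', w T = c K - c K' := by
    intro K' hK'
    have h1 := Finset.sum_filter_add_sum_filter_not (K.powerset.erase ∅)
      (fun T => Disjoint T K') w
    have h2 : (K.powerset.erase ∅).filter (fun T => ¬ Disjoint T K') =
        K.powerset.filter (fun T => ¬ Disjoint T K') := by
      ext T
      simp only [mem_filter, mem_erase, mem_powerset]
      constructor
      · rintro ⟨⟨_, h⟩, h'⟩
        exact ⟨h, h'⟩
      · rintro ⟨h, h'⟩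
        refine ⟨⟨?_, h⟩, h'⟩
        rintro rfl
        exact h' (disjoint_empty_left _)
    have h3 : K.powerset.erase ∅ = K.powerset.filter (fun T => ¬ Disjoint T K) := by
      ext T
      simp only [mem_filter, mem_erase, mem_powerset]
      constructor
      · rintro ⟨h, h'⟩
        refine ⟨h', ?_⟩
        obtain ⟨x, hx⟩ := nonempty_iff_ne_empty.2 h
        rw [Finset.disjoint_left]
        exact fun hd => hd hx (h' hx)
      · rintro ⟨h, h'⟩
        refine ⟨?_, h⟩
        rintro rfl
        exact h' (disjoint_empty_left _)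
    rw [h2, hw K' hK'] at h1
    have h4 : ∑ T ∈ K.powerset.erase ∅, w T = c K := by
      rw [h3]
      exact hw K (Subset.refl K)
    rw [h4] at h1
    linarith
  have hc0 : c ∅ = 0 := by
    have h := hw ∅ (empty_subset _)
    simp at h
    exact h.symm
  have htot : ∀ n, ∑ T ∈ K.powerset, cpow K w n T = c K ^ n := by
    intro n
    have h := cpow_sum K w n ∅
    simp only [disjoint_empty_right, filter_true] at h
    rw [h]
    have h2 := hN ∅ (empty_subset _)
    simp only [disjoint_empty_right, filter_true, hc0, sub_zero] at h2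
    rw [h2]
  have hle : ∀ n T, T ⊆ K → cpow K w n T ≤ c K ^ n := by
    intro n T hT
    rw [← htot n]
    exact Finset.single_le_sum (f := fun T => cpow K w n T)
      (fun R _ => cpow_nonneg K w hw0 n R) (mem_powerset.2 hT)
  have hck : 0 ≤ c K := by
    rw [← hw K (Subset.refl K)]
    exact Finset.sum_nonneg fun T _ => hw0 T
  have hsm : ∀ T ⊆ K, Summable (fun n : ℕ => Real.exp (-(u * c K)) *
      (u ^ n / n.factorial * cpow K w n T)) := by
    intro T hT
    apply Summable.mul_left
    refine Summable.of_nonneg_of_le (fun n => mul_nonneg (by positivity)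
      (cpow_nonneg K w hw0 n T)) (fun n => ?_) (Real.summable_pow_div_factorial (u * c K))
    have h1 := mul_le_mul_of_nonneg_left (hle n T hT)
      (show 0 ≤ u ^ n / (n.factorial : ℝ) by positivity)
    refine h1.trans (le_of_eq ?_)
    rw [mul_pow]
    ring
  refine ⟨hle, htot, ?_⟩
  have hkey : ∀ T ⊆ K, p T = ∑' n : ℕ, Real.exp (-(u * c K)) *
      (u ^ n / n.factorial * cpow K w n T) := by
    apply semi_unique
    intro K' hK'
    rw [hsum K' hK']
    rw [← Summable.tsum_finsetSum (fun T hT => hsm T (mem_powerset.1 (mem_filter.1 hT).1))]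
    have h1 : ∀ n : ℕ, ∑ T ∈ K.powerset with Disjoint T K', Real.exp (-(u * c K)) *
        (u ^ n / n.factorial * cpow K w n T) =
        Real.exp (-(u * c K)) * ((u * (c K - c K')) ^ n / n.factorial) := by
      intro n
      rw [← Finset.mul_sum, ← Finset.mul_sum, cpow_sum, hN K' hK', mul_pow]
      ring
    simp only [h1]
    rw [tsum_mul_left]
    have h2 : ∑' n : ℕ, (u * (c K - c K')) ^ n / (n.factorial : ℝ) =
        Real.exp (u * (c K - c K')) := by
      rw [Real.exp_eq_exp_ℝ, NormedSpace.exp_eq_tsum_div]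
    rw [h2, ← Real.exp_add]
    congr 1
    ring
  intro T hT
  rw [hkey T hT]
  exact (hsm T hT).hasSum

/-- Data processing: Hellinger affinity of two levels on an event of the finite window. -/
theorem semi_hellinger (K : Finset S) (c : Finset S → ℝ) (p : ℝ → Finset S → ℝ)
    (hp0 : ∀ u, 0 < u → ∀ T, 0 ≤ p u T)
    (hsum : ∀ u, 0 < u → ∀ K' ⊆ K, ∑ T ∈ K.powerset with Disjoint T K', p u T =
      Real.exp (-(u * c K'))) (hc0 : c ∅ = 0) (A : Finset (Finset S)) (hA : A ⊆ K.powerset)
    (u v : ℝ) (hu : 0 < u) (hv : 0 < v) :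
    Real.exp (-(c K * (√u - √v) ^ 2 / 2)) ≤
      √(∑ T ∈ A, p u T) * √(∑ T ∈ A, p v T) +
      √(1 - ∑ T ∈ A, p u T) * √(1 - ∑ T ∈ A, p v T) := by
  obtain ⟨w, hw0, hw⟩ := semi_weights K c p hp0 hsum hc0
  obtain ⟨hle, htot, hsu⟩ := semi_series K c (p u) u hu (hsum u hu) w hw0 hw
  obtain ⟨_, _, hsv⟩ := semi_series K c (p v) v hv (hsum v hv) w hw0 hw
  have hck : 0 ≤ c K := by
    rw [← hw K (Subset.refl K)]
    exact Finset.sum_nonneg fun T _ => hw0 T
  set al : ℕ → ℝ := fun n => ∑ T ∈ A, cpow K w n T with hal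
  have hal0 : ∀ n, 0 ≤ al n := fun n => Finset.sum_nonneg fun T _ => cpow_nonneg K w hw0 n T
  have hal1 : ∀ n, al n ≤ c K ^ n := by
    intro n
    rw [← htot n]
    exact Finset.sum_le_sum_of_subset_of_nonneg hA fun T _ _ => cpow_nonneg K w hw0 n T
  -- sums over the event
  have hS : ∀ t : ℝ, (∀ T ⊆ K, HasSum (fun n : ℕ => Real.exp (-(t * c K)) *
      (t ^ n / n.factorial * cpow K w n T)) (p t T)) →
      HasSum (fun n : ℕ => Real.exp (-(t * c K)) * (t ^ n / n.factorial * al n))
        (∑ T ∈ A, p t T) := by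
    intro t ht
    have h := hasSum_sum (fun T hT => ht T (mem_powerset.1 (hA hT)))
    have e : (fun n : ℕ => ∑ T ∈ A, Real.exp (-(t * c K)) *
        (t ^ n / n.factorial * cpow K w n T)) =
        fun n : ℕ => Real.exp (-(t * c K)) * (t ^ n / n.factorial * al n) := by
      funext n
      rw [← Finset.mul_sum, ← Finset.mul_sum]
    rw [e] at h
    exact h
  have hS' : ∀ t : ℝ, HasSum (fun n : ℕ => Real.exp (-(t * c K)) * (t ^ n / n.factorial * al n))
        (∑ T ∈ A, p t T) →
      HasSum (fun n : ℕ => Real.exp (-(t * c K)) * (t ^ n / n.factorial * (c K ^ n - al n)))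
        (1 - ∑ T ∈ A, p t T) := by
    intro t ht
    have h1 : HasSum (fun n : ℕ => Real.exp (-(t * c K)) * (t ^ n / n.factorial * c K ^ n)) 1 := by
      have h2 : HasSum (fun n : ℕ => (t * c K) ^ n / (n.factorial : ℝ)) (Real.exp (t * c K)) := by
        rw [Real.exp_eq_exp_ℝ]
        exact NormedSpace.expSeries_div_hasSum_exp (t * c K)
      have h3 := h2.mul_left (Real.exp (-(t * c K)))
      rw [← Real.exp_add, neg_add_cancel, Real.exp_zero] at h3
      have e : (fun n : ℕ => Real.exp (-(t * c K)) * (t ^ n / n.factorial * c K ^ n)) =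
          fun n : ℕ => Real.exp (-(t * c K)) * ((t * c K) ^ n / (n.factorial : ℝ)) := by
        funext n
        rw [mul_pow]
        ring
      rw [e]
      exact h3
    have h4 := h1.sub ht
    have e : (fun n : ℕ => Real.exp (-(t * c K)) * (t ^ n / n.factorial * (c K ^ n - al n))) =
        fun n : ℕ => Real.exp (-(t * c K)) * (t ^ n / n.factorial * c K ^ n) -
          Real.exp (-(t * c K)) * (t ^ n / n.factorial * al n) := by
      funext n
      ring
    rw [e]
    exact h4
  have hu1 := hS u hsu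
  have hv1 := hS v hsv
  have hu2 := hS' u hu1
  have hv2 := hS' v hv1
  set r : ℝ := √u * √v with hr
  have hr2 : r ^ 2 = u * v := by
    rw [hr, mul_pow, Real.sq_sqrt hu.le, Real.sq_sqrt hv.le]
  have hr0 : 0 ≤ r := by positivity
  have hterm : ∀ (n : ℕ) (b : ℝ), 0 ≤ b →
      √(Real.exp (-(u * c K)) * (u ^ n / n.factorial * b)) *
        √(Real.exp (-(v * c K)) * (v ^ n / n.factorial * b)) =
      Real.exp (-((u + v) * c K / 2)) * (r ^ n / n.factorial * b) := by
    intro n b hb
    rw [← Real.sqrt_mul (by positivity)]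
    have e : Real.exp (-(u * c K)) * (u ^ n / n.factorial * b) *
        (Real.exp (-(v * c K)) * (v ^ n / n.factorial * b)) =
        (Real.exp (-((u + v) * c K / 2)) * (r ^ n / n.factorial * b)) ^ 2 := by
      have e1 : Real.exp (-(u * c K)) * Real.exp (-(v * c K)) =
          Real.exp (-((u + v) * c K / 2)) ^ 2 := by
        rw [← Real.exp_add, ← Real.exp_nat_mul]
        congr 1
        push_cast
        ring
      have e2 : u ^ n * v ^ n = (r ^ n) ^ 2 := by
        rw [← mul_pow, ← hr2]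
        ring
      calc _ = (Real.exp (-(u * c K)) * Real.exp (-(v * c K))) * (u ^ n * v ^ n) *
            (b / n.factorial) ^ 2 := by ring
        _ = _ := by
            rw [e1, e2]
            ring
    rw [e, Real.sqrt_sq (by positivity)]
  have hL : HasSum (fun n : ℕ => Real.exp (-((u + v) * c K / 2)) * (r ^ n / n.factorial * c K ^ n))
      (Real.exp (-(c K * (√u - √v) ^ 2 / 2))) := by
    have h2 : HasSum (fun n : ℕ => (r * c K) ^ n / (n.factorial : ℝ)) (Real.exp (r * c K)) := by
      rw [Real.exp_eq_exp_ℝ]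
      exact NormedSpace.expSeries_div_hasSum_exp (r * c K)
    have h3 := h2.mul_left (Real.exp (-((u + v) * c K / 2)))
    have e : (fun n : ℕ => Real.exp (-((u + v) * c K / 2)) * (r ^ n / n.factorial * c K ^ n)) =
        fun n : ℕ => Real.exp (-((u + v) * c K / 2)) * ((r * c K) ^ n / (n.factorial : ℝ)) := by
      funext n
      rw [mul_pow]
      ring
    rw [e]
    have e' : Real.exp (-(c K * (√u - √v) ^ 2 / 2)) =
        Real.exp (-((u + v) * c K / 2)) * Real.exp (r * c K) := by
      rw [← Real.exp_add]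
      congr 1
      have h5 : (√u - √v) ^ 2 = u + v - 2 * r := by
        rw [sub_sq, Real.sq_sqrt hu.le, Real.sq_sqrt hv.le, hr]
        ring
      rw [h5]
      ring
    rw [e']
    exact h3
  refine le_of_tendsto' hL.tendsto_sum_nat fun N => ?_
  have hsplit : ∀ n : ℕ, Real.exp (-((u + v) * c K / 2)) * (r ^ n / n.factorial * c K ^ n) =
      √(Real.exp (-(u * c K)) * (u ^ n / n.factorial * al n)) *
        √(Real.exp (-(v * c K)) * (v ^ n / n.factorial * al n)) +
      √(Real.exp (-(u * c K)) * (u ^ n / n.factorial * (c K ^ n - al n))) *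
        √(Real.exp (-(v * c K)) * (v ^ n / n.factorial * (c K ^ n - al n))) := by
    intro n
    rw [hterm n _ (hal0 n), hterm n _ (sub_nonneg.2 (hal1 n))]
    ring
  simp only [hsplit]
  rw [Finset.sum_add_distrib]
  have hnn : ∀ (t : ℝ), 0 < t → ∀ (n : ℕ) (b : ℝ), 0 ≤ b →
      0 ≤ Real.exp (-(t * c K)) * (t ^ n / n.factorial * b) := by
    intro t ht n b hb
    positivity
  apply add_le_add
  · refine (Real.sum_sqrt_mul_sqrt_le (Finset.range N) (fun n => hnn u hu n _ (hal0 n))
      (fun n => hnn v hv n _ (hal0 n))).trans ?_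
    apply mul_le_mul
    · exact Real.sqrt_le_sqrt (sum_le_hasSum _ (fun n _ => hnn u hu n _ (hal0 n)) hu1)
    · exact Real.sqrt_le_sqrt (sum_le_hasSum _ (fun n _ => hnn v hv n _ (hal0 n)) hv1)
    · exact Real.sqrt_nonneg _
    · exact Real.sqrt_nonneg _
  · refine (Real.sum_sqrt_mul_sqrt_le (Finset.range N)
      (fun n => hnn u hu n _ (sub_nonneg.2 (hal1 n)))
      (fun n => hnn v hv n _ (sub_nonneg.2 (hal1 n)))).trans ?_
    apply mul_le_mul
    · exact Real.sqrt_le_sqrt (sum_le_hasSum _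
        (fun n _ => hnn u hu n _ (sub_nonneg.2 (hal1 n))) hu2)
    · exact Real.sqrt_le_sqrt (sum_le_hasSum _
        (fun n _ => hnn v hv n _ (sub_nonneg.2 (hal1 n))) hv2)
    · exact Real.sqrt_nonneg _
    · exact Real.sqrt_nonneg _

/-- Affinity controls the difference of two probabilities. -/
theorem semi_affinity (a b ρ : ℝ) (ha : 0 ≤ a) (ha' : a ≤ 1) (hb : 0 ≤ b) (hb' : b ≤ 1)
    (hρ : 0 ≤ ρ) (h : ρ ≤ √a * √b + √(1 - a) * √(1 - b)) : (a - b) ^ 2 ≤ 1 - ρ ^ 2 := by
  have e1 := Real.sq_sqrt ha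
  have e2 := Real.sq_sqrt hb
  have e3 := Real.sq_sqrt (sub_nonneg.2 ha')
  have e4 := Real.sq_sqrt (sub_nonneg.2 hb')
  set x := √a
  set y := √b
  set z := √(1 - a)
  set t := √(1 - b)
  have h1 : ρ ^ 2 ≤ (x * y + z * t) ^ 2 := pow_le_pow_left₀ hρ h 2
  -- (a - b)^2 <= (x t - z y)^2 = 1 - (x y + z t)^2
  have h2 : (x * y + z * t) ^ 2 + (x * t - z * y) ^ 2 = 1 := by
    have : (x * y + z * t) ^ 2 + (x * t - z * y) ^ 2 = (x ^ 2 + z ^ 2) * (y ^ 2 + t ^ 2) := by ring
    rw [this, e1, e2, e3, e4]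
    ring
  have h3 : a - b = (x * t - z * y) * (x * t + z * y) := by
    have : (x * t - z * y) * (x * t + z * y) = x ^ 2 * t ^ 2 - z ^ 2 * y ^ 2 := by ring
    rw [this, e1, e2, e3, e4]
    ring
  have h4 : (x * t + z * y) ^ 2 ≤ 1 := by
    have : (x * t + z * y) ^ 2 + (x * y - z * t) ^ 2 = (x ^ 2 + z ^ 2) * (y ^ 2 + t ^ 2) := by ring
    rw [e1, e2, e3, e4] at this
    nlinarith [sq_nonneg (x * y - z * t)]
  have h5 : (a - b) ^ 2 ≤ (x * t - z * y) ^ 2 := by
    rw [h3, mul_pow]
    nlinarith [sq_nonneg (x * t - z * y)]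
  linarith

/-- The finite window inequality. -/
theorem semi_main (K : Finset S) (c : Finset S → ℝ) (p : ℝ → Finset S → ℝ)
    (hp0 : ∀ u, 0 < u → ∀ T, 0 ≤ p u T)
    (hsum : ∀ u, 0 < u → ∀ K' ⊆ K, ∑ T ∈ K.powerset with Disjoint T K', p u T =
      Real.exp (-(u * c K'))) (hc0 : c ∅ = 0) (A : Finset (Finset S)) (hA : A ⊆ K.powerset)
    (u v : ℝ) (hu : 0 < u) (hv : 0 < v) :
    |∑ T ∈ A, p u T - ∑ T ∈ A, p v T| ≤ √(c K) * |√u - √v| := by
  have htot : ∀ u, 0 < u → ∑ T ∈ K.powerset, p u T = 1 := by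
    intro u hu
    have h := hsum u hu ∅ (empty_subset _)
    simp only [disjoint_empty_right, filter_true, hc0, mul_zero, neg_zero, Real.exp_zero] at h
    exact h
  have h01 : ∀ t, 0 < t → 0 ≤ ∑ T ∈ A, p t T ∧ ∑ T ∈ A, p t T ≤ 1 := by
    intro t ht
    refine ⟨Finset.sum_nonneg fun T _ => hp0 t ht T, ?_⟩
    rw [← htot t ht]
    exact Finset.sum_le_sum_of_subset_of_nonneg hA fun T _ _ => hp0 t ht T
  obtain ⟨w, hw0, hw⟩ := semi_weights K c p hp0 hsum hc0
  have hck : 0 ≤ c K := by
    rw [← hw K (Subset.refl K)]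
    exact Finset.sum_nonneg fun T _ => hw0 T
  have h1 := semi_hellinger K c p hp0 hsum hc0 A hA u v hu hv
  have h2 := semi_affinity _ _ _ (h01 u hu).1 (h01 u hu).2 (h01 v hv).1 (h01 v hv).2
    (Real.exp_pos _).le h1
  have h3 : 1 - Real.exp (-(c K * (√u - √v) ^ 2 / 2)) ^ 2 ≤ c K * (√u - √v) ^ 2 := by
    rw [← Real.exp_nat_mul]
    have h4 := Real.add_one_le_exp (((2 : ℕ) : ℝ) * (-(c K * (√u - √v) ^ 2 / 2)))
    push_cast at h4 ⊢
    linarith
  have h5 : |∑ T ∈ A, p u T - ∑ T ∈ A, p v T| ^ 2 ≤ (√(c K) * |√u - √v|) ^ 2 := by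
    rw [sq_abs, mul_pow, sq_abs, Real.sq_sqrt hck]
    exact h2.trans h3
  exact le_of_sq_le_sq h5 (by positivity)

/-- Monotonicity in the level. -/
theorem semi_mono (K : Finset S) (c : Finset S → ℝ) (p : ℝ → Finset S → ℝ)
    (hp0 : ∀ u, 0 < u → ∀ T, 0 ≤ p u T)
    (hsum : ∀ u, 0 < u → ∀ K' ⊆ K, ∑ T ∈ K.powerset with Disjoint T K', p u T =
      Real.exp (-(u * c K'))) (hc0 : c ∅ = 0) (A : Finset (Finset S)) (hA : A ⊆ K.powerset)
    (hdown : ∀ T ∈ A, ∀ R ⊆ T, R ∈ A)
    (u v : ℝ) (hu : 0 < u) (huv : u < v) :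
    ∑ T ∈ A, p v T ≤ ∑ T ∈ A, p u T := by
  classical
  have hvu : 0 < v - u := sub_pos.2 huv
  have hv : 0 < v := hu.trans huv
  have htot : ∀ u, 0 < u → ∑ T ∈ K.powerset, p u T = 1 := by
    intro u hu
    have h := hsum u hu ∅ (empty_subset _)
    simp only [disjoint_empty_right, filter_true, hc0, mul_zero, neg_zero, Real.exp_zero] at h
    exact h
  have hg : ∀ T ⊆ K, p v T = ∑ R ∈ K.powerset, ∑ Q ∈ K.powerset,
      if R ∪ Q = T then p u R * p (v - u) Q else 0 := by
    apply semi_unique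
    intro K' hK'
    rw [hsum v hv K' hK', Finset.sum_filter]
    have h1 : ∀ T ∈ K.powerset, (if Disjoint T K' then ∑ R ∈ K.powerset, ∑ Q ∈ K.powerset,
        (if R ∪ Q = T then p u R * p (v - u) Q else 0) else 0) =
        ∑ R ∈ K.powerset, ∑ Q ∈ K.powerset, if R ∪ Q = T then
          (if Disjoint (R ∪ Q) K' then p u R * p (v - u) Q else 0) else 0 := by
      intro T _
      split_ifs with hd
      · apply Finset.sum_congr rfl
        intro R _
        apply Finset.sum_congr rfl
        intro Q _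
        by_cases h : R ∪ Q = T
        · rw [if_pos h, if_pos h, h, if_pos hd]
        · rw [if_neg h, if_neg h]
      · symm
        apply Finset.sum_eq_zero
        intro R _
        apply Finset.sum_eq_zero
        intro Q _
        by_cases h : R ∪ Q = T
        · rw [if_pos h, h, if_neg hd]
        · rw [if_neg h]
    rw [Finset.sum_congr rfl h1, Finset.sum_comm]
    have h2 : ∀ R ∈ K.powerset, (∑ T ∈ K.powerset, ∑ Q ∈ K.powerset, if R ∪ Q = T then
          (if Disjoint (R ∪ Q) K' then p u R * p (v - u) Q else 0) else 0) =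
        ∑ Q ∈ K.powerset, (if Disjoint R K' then p u R else 0) *
          (if Disjoint Q K' then p (v - u) Q else 0) := by
      intro R hR
      rw [Finset.sum_comm]
      apply Finset.sum_congr rfl
      intro Q hQ
      rw [Finset.sum_ite_eq, if_pos (mem_powerset.2 (union_subset (mem_powerset.1 hR)
        (mem_powerset.1 hQ)))]
      by_cases hR' : Disjoint R K'
      · by_cases hQ' : Disjoint Q K'
        · have h : Disjoint (R ∪ Q) K' := disjoint_union_left.2 ⟨hR', hQ'⟩
          rw [if_pos h, if_pos hR', if_pos hQ']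
        · have h : ¬ Disjoint (R ∪ Q) K' := fun h => hQ' (disjoint_union_left.1 h).2
          rw [if_neg h, if_neg hQ', mul_zero]
      · have h : ¬ Disjoint (R ∪ Q) K' := fun h => hR' (disjoint_union_left.1 h).1
        rw [if_neg h, if_neg hR', zero_mul]
    rw [Finset.sum_congr rfl h2, ← Finset.sum_mul_sum, ← Finset.sum_filter, ← Finset.sum_filter,
      hsum u hu K' hK', hsum (v - u) hvu K' hK', ← Real.exp_add]
    congr 1
    ring
  have h3 : ∑ T ∈ A, p v T = ∑ R ∈ K.powerset, ∑ Q ∈ K.powerset,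
      if R ∪ Q ∈ A then p u R * p (v - u) Q else 0 := by
    rw [Finset.sum_congr rfl (fun T hT => hg T (mem_powerset.1 (hA hT))), Finset.sum_comm]
    apply Finset.sum_congr rfl
    intro R _
    rw [Finset.sum_comm]
    apply Finset.sum_congr rfl
    intro Q _
    rw [Finset.sum_ite_eq]
  rw [h3]
  calc ∑ R ∈ K.powerset, ∑ Q ∈ K.powerset, (if R ∪ Q ∈ A then p u R * p (v - u) Q else 0)
      ≤ ∑ R ∈ K.powerset, ∑ Q ∈ K.powerset, (if R ∈ A then p u R else 0) * p (v - u) Q := by
        apply Finset.sum_le_sum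
        intro R _
        apply Finset.sum_le_sum
        intro Q _
        by_cases h : R ∪ Q ∈ A
        · rw [if_pos h, if_pos (hdown _ h R subset_union_left)]
        · rw [if_neg h]
          split_ifs
          · exact mul_nonneg (hp0 u hu R) (hp0 _ hvu Q)
          · rw [zero_mul]
    _ = ∑ T ∈ A, p u T := by
        rw [← Finset.sum_mul_sum, htot _ hvu, mul_one, ← Finset.sum_filter]
        congr 1
        ext R
        rw [mem_filter]
        exact ⟨fun h => h.2, fun h => ⟨hA h, h⟩⟩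

end RInt
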